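import Mathlib

/-!
# Polynomials in a point of an elliptic curve (lemmas for the module ELL of the project FM)
-/

set_option autoImplicit false

namespace Pool.Agent.J6H34.FM

open Polynomial

/-- the normal form `A + B y` of a polynomial in the `P i + Q i y` -/
theorem exists_normal (a b : ℂ) {σ : Type} (P Q : σ → ℂ[X]) (F : MvPolynomial σ ℂ) :
    ∃ A B : ℂ[X], ∀ (K : Type) [Field K] [Algebra ℂ K] (x y : K),
      y ^ 2 = x ^ 3 + algebraMap ℂ K a * x + algebraMap ℂ K b →
      MvPolynomial.aeval (fun i => aeval x (P i) + aeval x (Q i) * y) F =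
        aeval x A + aeval x B * y := by
  induction F using MvPolynomial.induction_on with
  | C r =>
    refine ⟨C r, 0, fun K _ _ x y h => ?_⟩
    rw [MvPolynomial.algHom_C, aeval_C, map_zero, zero_mul, add_zero]
  | add F G hF hG =>
    obtain ⟨A, B, h1⟩ := hF
    obtain ⟨A', B', h2⟩ := hG
    refine ⟨A + A', B + B', fun K _ _ x y h => ?_⟩
    rw [map_add, h1 K x y h, h2 K x y h, map_add, map_add]
    ring
  | mul_X F i hF =>
    obtain ⟨A, B, h1⟩ := hF
    refine ⟨A * P i + B * Q i * (X ^ 3 + C a * X + C b), A * Q i + B * P i,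
      fun K _ _ x y h => ?_⟩
    rw [map_mul, MvPolynomial.aeval_X, h1 K x y h]
    simp only [map_add, map_mul, map_pow, aeval_X, aeval_C]
    linear_combination (aeval x B * aeval x (Q i)) * h

theorem cubic_ne (a b : ℂ) : (X ^ 3 + C a * X + C b : ℂ[X]).natDegree = 3 ∧
    (X ^ 3 + C a * X + C b : ℂ[X]) ≠ 0 := by
  have hdeg : (X ^ 3 + C a * X + C b : ℂ[X]).natDegree = 3 := by compute_degree!
  refine ⟨hdeg, fun h0 => ?_⟩
  rw [h0, natDegree_zero] at hdeg
  omega

/-- `1` and `y` are linearly independent over `ℂ(x)` -/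
theorem zero_of_aeval {a b : ℂ} {E : Type} [Field E] [Algebra ℂ E] {x y : E}
    (hx : Transcendental ℂ x)
    (hy : y ^ 2 = x ^ 3 + algebraMap ℂ E a * x + algebraMap ℂ E b) {A B : ℂ[X]}
    (h : aeval x A + aeval x B * y = 0) : A = 0 ∧ B = 0 := by
  have h1 : aeval x (A ^ 2 - B ^ 2 * (X ^ 3 + C a * X + C b)) = 0 := by
    simp only [map_sub, map_add, map_mul, map_pow, aeval_X, aeval_C]
    rw [← hy]
    linear_combination (aeval x A - aeval x B * y) * h
  have h2 : A ^ 2 - B ^ 2 * (X ^ 3 + C a * X + C b) = 0 := by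
    by_contra hne
    exact hx ⟨_, hne, h1⟩
  have h3 : A ^ 2 = B ^ 2 * (X ^ 3 + C a * X + C b) := sub_eq_zero.1 h2
  have hB : B = 0 := by
    by_contra hB
    have h4 := congrArg natDegree h3
    rw [natDegree_pow, natDegree_mul (pow_ne_zero 2 hB) (cubic_ne a b).2, natDegree_pow,
      (cubic_ne a b).1] at h4
    omega
  refine ⟨?_, hB⟩
  rw [hB, zero_pow two_ne_zero, zero_mul] at h3
  exact pow_eq_zero_iff two_ne_zero |>.1 h3

/-- the same at the points of the curve -/
theorem zero_of_eval {a b : ℂ} {A B : ℂ[X]}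
    (h : ∀ x y : ℂ, y ^ 2 = x ^ 3 + a * x + b → A.eval x + B.eval x * y = 0) :
    A = 0 ∧ B = 0 := by
  have h1 : ∀ x : ℂ, A.eval x = 0 ∧ (B * (X ^ 3 + C a * X + C b)).eval x = 0 := by
    intro x
    obtain ⟨y, hy⟩ := IsAlgClosed.exists_pow_nat_eq (x ^ 3 + a * x + b) two_pos
    have h2 := h x y hy
    have h3 := h x (-y) (by rw [neg_sq]; exact hy)
    have h4 : A.eval x = 0 := by linear_combination (h2 + h3) / 2
    refine ⟨h4, ?_⟩
    simp only [eval_mul, eval_add, eval_pow, eval_X, eval_C]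
    rw [← hy]
    rw [h4, zero_add] at h2
    linear_combination y * h2
  have hA : A = 0 := Polynomial.funext fun x => by rw [(h1 x).1, eval_zero]
  have hBh : B * (X ^ 3 + C a * X + C b) = 0 :=
    Polynomial.funext fun x => by rw [(h1 x).2, eval_zero]
  exact ⟨hA, (mul_eq_zero.1 hBh).resolve_right (cubic_ne a b).2⟩

/-- the fibre over `c` -/
noncomputable def spec {β : Type} {M : ℕ} (c : β → ℂ) (F : MvPolynomial (β ⊕ Fin (M + 1)) ℂ) :
    MvPolynomial (Fin (M + 1)) ℂ :=
  MvPolynomial.aeval (Sum.elim (fun i => MvPolynomial.C (c i)) MvPolynomial.X) F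

theorem eval_spec {β : Type} {M : ℕ} (c : β → ℂ) (F : MvPolynomial (β ⊕ Fin (M + 1)) ℂ)
    (z : Fin (M + 1) → ℂ) :
    MvPolynomial.eval z (spec c F) = MvPolynomial.eval (Sum.elim c z) F := by
  rw [spec, ← MvPolynomial.coe_aeval_eq_eval, ← MvPolynomial.coe_aeval_eq_eval]
  show MvPolynomial.aeval z (MvPolynomial.aeval _ F) = MvPolynomial.aeval _ F
  rw [MvPolynomial.comp_aeval_apply]
  congr 2
  funext i
  rcases i with i | i
  · show MvPolynomial.aeval z (MvPolynomial.C (c i)) = c i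
    rw [MvPolynomial.algHom_C]
    rfl
  · show MvPolynomial.aeval z (MvPolynomial.X i) = z i
    rw [MvPolynomial.aeval_X]

theorem spec_hom {β : Type} {M : ℕ} (c : β → ℂ) {F : MvPolynomial (β ⊕ Fin (M + 1)) ℂ} {e : ℕ}
    (hF : MvPolynomial.IsWeightedHomogeneous
      (Sum.elim (fun _ => 0) (fun _ => 1) : β ⊕ Fin (M + 1) → ℕ) F e) :
    (spec c F).IsHomogeneous e := by
  rw [spec, MvPolynomial.aeval_def, MvPolynomial.eval₂_eq]
  refine MvPolynomial.IsHomogeneous.sum _ _ _ fun d hd => ?_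
  have h1 := hF (MvPolynomial.mem_support_iff.1 hd)
  rw [Finsupp.weight_apply, Finsupp.sum] at h1
  have h2 : ∀ i : β ⊕ Fin (M + 1), (Sum.elim (fun i => MvPolynomial.C (c i)) MvPolynomial.X i :
      MvPolynomial (Fin (M + 1)) ℂ).IsHomogeneous
        ((Sum.elim (fun _ => 0) (fun _ => 1) : β ⊕ Fin (M + 1) → ℕ) i) := by
    rintro (i | i)
    · exact MvPolynomial.isHomogeneous_C _ _
    · exact MvPolynomial.isHomogeneous_X _ _
  have h3 := (MvPolynomial.isHomogeneous_C (Fin (M + 1)) (MvPolynomial.coeff d F)).mul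
    (MvPolynomial.IsHomogeneous.prod d.support _
      (fun i => (Sum.elim (fun _ => 0) (fun _ => 1) : β ⊕ Fin (M + 1) → ℕ) i * d i)
      fun i _ => (h2 i).pow (d i))
  have h4 : 0 + ∑ i ∈ d.support,
      (Sum.elim (fun _ => 0) (fun _ => 1) : β ⊕ Fin (M + 1) → ℕ) i * d i = e := by
    rw [zero_add, ← h1]
    exact Finset.sum_congr rfl fun i _ => by rw [smul_eq_mul, mul_comm]
  rw [h4] at h3
  exact h3

/-- an algebraic element is a complex number -/
theorem exists_const {E : Type} [Field E] [Algebra ℂ E] {z : E} (h : IsAlgebraic ℂ z) :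
    ∃ r : ℂ, algebraMap ℂ E r = z := by
  have hint := h.isIntegral
  refine ⟨-(minpoly ℂ z).coeff 0, ?_⟩
  have hq : (minpoly ℂ z).leadingCoeff = 1 := minpoly.monic hint
  have h1 : (minpoly ℂ z).degree = 1 :=
    IsAlgClosed.degree_eq_one_of_irreducible ℂ (minpoly.irreducible hint)
  have h2 : aeval z (minpoly ℂ z) = 0 := minpoly.aeval ℂ z
  rw [eq_X_add_C_of_degree_eq_one h1, hq, C_1, one_mul, aeval_add, aeval_X, aeval_C,
    add_eq_zero_iff_eq_neg] at h2
  rw [map_neg]
  exact h2.symm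

section point
variable {a b : ℂ} {E : Type} [Field E] [Algebra ℂ E] {x y : E} (hx : Transcendental ℂ x)
  (hy : y ^ 2 = x ^ 3 + algebraMap ℂ E a * x + algebraMap ℂ E b) {β : Type} {M : ℕ}
  (P Q : Fin (M + 1) → ℂ[X])

include hy in
/-- the point `P + Q y` lies in the fibre -/
theorem spec_zero (c : β → ℂ) (F : MvPolynomial (β ⊕ Fin (M + 1)) ℂ)
    (h : ∀ x y : ℂ, y ^ 2 = x ^ 3 + a * x + b →
      MvPolynomial.eval (Sum.elim c fun i => (P i).eval x + (Q i).eval x * y) F = 0) :
    MvPolynomial.aeval (fun i => aeval x (P i) + aeval x (Q i) * y) (spec c F) = 0 := by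
  obtain ⟨A, B, hAB⟩ := exists_normal a b P Q (spec c F)
  obtain ⟨hA, hB⟩ := zero_of_eval (a := a) (b := b) (A := A) (B := B) (fun u v huv => by
    have h1 := hAB ℂ u v huv
    have h2 : MvPolynomial.aeval (fun i => aeval u (P i) + aeval u (Q i) * v) (spec c F) = 0 := by
      have h3 := eval_spec c F (fun i => (P i).eval u + (Q i).eval u * v)
      rw [h u v huv, ← MvPolynomial.coe_aeval_eq_eval] at h3
      exact h3
    rw [h2] at h1
    exact h1.symm)
  rw [hAB E x y hy, hA, hB, map_zero, zero_mul, add_zero]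

include hx hy in
/-- the point `P + Q y` is not constant -/
theorem nonconst {i j : Fin (M + 1)} {u v u' v' : ℂ}
    (h : ((P i).eval u + (Q i).eval u * v) * ((P j).eval u' + (Q j).eval u' * v') ≠
        ((P j).eval u + (Q j).eval u * v) * ((P i).eval u' + (Q i).eval u' * v')) :
    (aeval x (P j) + aeval x (Q j) * y) ≠ 0 ∧
      Transcendental ℂ ((aeval x (P i) + aeval x (Q i) * y) /
        (aeval x (P j) + aeval x (Q j) * y)) := by
  have hj : (aeval x (P j) + aeval x (Q j) * y) ≠ 0 := by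
    intro h0
    obtain ⟨hP, hQ⟩ := zero_of_aeval hx hy h0
    apply h
    rw [hP, hQ]
    simp
  refine ⟨hj, fun halg => ?_⟩
  obtain ⟨r, hr⟩ := exists_const halg
  have h1 : aeval x (P i - C r * P j) + aeval x (Q i - C r * Q j) * y = 0 := by
    rw [eq_div_iff hj] at hr
    simp only [map_sub, map_mul, aeval_C]
    linear_combination -hr
  obtain ⟨hP, hQ⟩ := zero_of_aeval hx hy h1
  apply h
  rw [sub_eq_zero.1 hP, sub_eq_zero.1 hQ]
  simp only [eval_mul, eval_C]
  ring

end point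

end Pool.Agent.J6H34.FM
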