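import Pool.Agent.J6H34.FM.Cur
import Pool.Agent.J6H55.FM.Stm
import Pool.Agent.Q103.SF.Conv
import Pool.Agent.Q95.SF.Wei

/-!
# Maps from elliptic curves give entire curves (module ELL of the project FM)
-/

set_option autoImplicit false
set_option linter.overlappingInstances false

namespace Pool.Agent.J6H34.FM

open Polynomial

/-- Module FM-ELL: maps from elliptic curves give entire curves. -/
theorem ell : Pool.Agent.J6H55.FM.S_ell := by
  intro β _ M D FF hFF c hE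
  obtain ⟨a, b, P, Q, hab, -, hmem, i, j, u, v, u', v', huv, huv', hne⟩ := hE
  -- the field
  obtain ⟨τ, hτ⟩ : ∃ τ : AlgebraicClosure (RatFunc ℂ), Transcendental ℂ τ := by
    refine ⟨algebraMap (RatFunc ℂ) _ RatFunc.X, fun h => ?_⟩
    exact RatFunc.transcendental_X
      ((isAlgebraic_algebraMap_iff (algebraMap (RatFunc ℂ) (AlgebraicClosure (RatFunc ℂ))).injective).1 h)
  obtain ⟨η, hη⟩ := IsAlgClosed.exists_pow_nat_eq
    (τ ^ 3 + algebraMap ℂ (AlgebraicClosure (RatFunc ℂ)) a * τ + algebraMap ℂ _ b) two_pos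
  obtain ⟨E, hE⟩ : ∃ E : IntermediateField ℂ (AlgebraicClosure (RatFunc ℂ)),
      E = IntermediateField.adjoin ℂ {τ, η} := ⟨_, rfl⟩
  obtain ⟨hFFE, hEll⟩ := Pool.Agent.Q103.SF.ell_of_gen hτ hab hη E hE
  have hτE : τ ∈ E := by rw [hE]; exact IntermediateField.subset_adjoin ℂ _ (by simp)
  have hηE : η ∈ E := by rw [hE]; exact IntermediateField.subset_adjoin ℂ _ (by simp)
  obtain ⟨x, hx⟩ : ∃ x : E, x = ⟨τ, hτE⟩ := ⟨_, rfl⟩
  obtain ⟨y, hy⟩ : ∃ y : E, y = ⟨η, hηE⟩ := ⟨_, rfl⟩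
  have hxt : Transcendental ℂ x := by
    intro h
    apply hτ
    have h1 := IsAlgebraic.algHom E.val h
    rw [hx] at h1
    exact h1
  have hxy : y ^ 2 = x ^ 3 + algebraMap ℂ E a * x + algebraMap ℂ E b := by
    apply E.val.injective
    simp only [map_pow, map_add, map_mul, hx, hy]
    exact hη
  obtain ⟨hj, htr⟩ := nonconst hxt hxy P Q hne
  obtain ⟨z, hz⟩ : ∃ z : Fin (M + 1) → E, z = fun i => aeval x (P i) + aeval x (Q i) * y :=
    ⟨_, rfl⟩
  have hjz : z j ≠ 0 := by rw [hz]; exact hj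
  have hnc : Pool.Agent.Q271.RC.Nonconst z := by
    refine ⟨i, j, hjz, ?_⟩
    rw [hz]
    exact htr
  have hon : Pool.Agent.Y216.OnVar ℂ z z := ⟨⟨j, hjz⟩, fun _ _ h => h⟩
  obtain ⟨f, hf, -⟩ := Pool.Agent.Q103.SF.curve_of_ell Pool.Agent.Q95.SF.wei hEll hon hnc
  refine ⟨f, hf.hol, hf.ne, fun F hF t => ?_, hf.nonconst⟩
  obtain ⟨e, he⟩ := hFF F hF
  have h1 := hf.mem (spec c F) ⟨e, spec_hom c he⟩ (by
    show MvPolynomial.aeval z (spec c F) = 0
    rw [hz]
    exact spec_zero hxy P Q c F (hmem F hF)) t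
  rw [eval_spec] at h1
  exact h1

end Pool.Agent.J6H34.FM
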